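import Mathlib
import Pool.Agent.W890.SF.Stm2

/-!
# The range of `x` close to `1/k` in the asymptotic Erdős matching conjecture: statements

`S_r` denotes a sum of `r` independent choices from `y v`, `v : V` uniform.
-/

set_option autoImplicit false

namespace Pool.Agent.W593.IR

open Finset Pool.Agent.W890.SF Filter Topology

/-! ## The critical inequality `P(S_{k-1} ≥ k) ≤ C P(S_k < k)` (mean one), scaled by `1/k`, `k = r+1` -/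

/-- the critical inequality with constant `C` -/
def STAR (r : ℕ) (C : ℝ) : Prop := ∀ (V : Type) [Fintype V] [Nonempty V] (y : V → ℝ),
  (∀ v, 0 ≤ y v) → ((r : ℝ) + 1) * ∑ v, y v = (Fintype.card V : ℝ) →
  (({f : Fin r → V | 1 ≤ ∑ i, y (f i)}.ncard : ℕ) : ℝ) * (Fintype.card V : ℝ) ≤
    C * (({f : Fin (r + 1) → V | ∑ i, y (f i) < 1}.ncard : ℕ) : ℝ)

/-- `E (1 - S_r)^+ ≤ E (1 - S_{r+1})^+ + x P(S_r < 1)` for two-point variables -/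
def S_GW : Prop := ∀ (r : ℕ) (x : ℝ), 0 < x → ∀ a b q : Fin (r + 1) → ℝ, TP (r + 1) x a b q →
  PG (fun i : Fin r => b i.castSucc) (fun i : Fin r => q i.castSucc) (1 - ∑ i : Fin r, a i.castSucc) univ ≤
    PG b q (1 - ∑ i, a i) univ +
      x * PP (fun i : Fin r => a i.castSucc) (fun i : Fin r => b i.castSucc) (fun i : Fin r => q i.castSucc)

/-- one variable inequality -/
def S_RQ : Prop := ∀ H : ℝ, 2 ≤ H → 1 ≤ (1 - 1 / H) ^ (H - 1) * (3 - 2 / H)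

/-- monotonicity -/
def S_LANT : Prop := ∀ g h : ℝ, 1 ≤ g → g ≤ h → (1 - 1 / h) ^ (h - 1) ≤ (1 - 1 / g) ^ (g - 1)

/-- the critical inequality with constant `2` for two-point variables -/
def S_T2S : Prop := ∀ r : ℕ, 1 ≤ r → ∀ a b q : Fin (r + 1) → ℝ,
  TP (r + 1) (1 / ((r : ℝ) + 1)) a b q →
  1 - PP (fun i : Fin r => a i.castSucc) (fun i : Fin r => b i.castSucc) (fun i : Fin r => q i.castSucc) ≤
    2 * PP a b q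

/-- the critical inequality with constant `2` -/
def S_ST2 : Prop := ∀ r : ℕ, 1 ≤ r → STAR r 2

/-! ## Counting -/

/-- number of `j`-tuples with sum less than one -/
noncomputable def NL {V : Type} (y : V → ℝ) (j : ℕ) : ℕ := {f : Fin j → V | ∑ i, y (f i) < 1}.ncard

/-- number of `j`-tuples with sum at least one -/
noncomputable def NG {V : Type} (y : V → ℝ) (j : ℕ) : ℕ := {f : Fin j → V | 1 ≤ ∑ i, y (f i)}.ncard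

/-- Loomis–Whitney for the sets of tuples with sum less than one -/
def S_LW : Prop := ∀ (V : Type) [Fintype V] (y : V → ℝ), (∀ v, 0 ≤ y v) → ∀ j : ℕ, 1 ≤ j →
  (NL y (j + 1)) ^ j ≤ (NL y j) ^ (j + 1)

/-- Samuels' inequality, `j` variables of mean `1/(r+1)`, `j ≤ r` -/
def S_SJ : Prop := ∀ (V : Type) [Fintype V] [Nonempty V] (y : V → ℝ) (r j : ℕ), (∀ v, 0 ≤ y v) →
  ((r : ℝ) + 1) * ∑ v, y v = (Fintype.card V : ℝ) → j ≤ r →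
  (1 - 1 / ((r : ℝ) + 1)) ^ j * (Fintype.card V : ℝ) ^ j ≤ (NL y j : ℝ)

/-- `p_j / s_j` is nondecreasing, `p_j = P(S_j ≥ 1)`, `s_j = 1 - (1 - 1/(r+1))^j` -/
def S_PJ : Prop := ∀ (V : Type) [Fintype V] [Nonempty V] (y : V → ℝ) (r j : ℕ), (∀ v, 0 ≤ y v) →
  ((r : ℝ) + 1) * ∑ v, y v = (Fintype.card V : ℝ) → 1 ≤ j → j ≤ r →
  (NG y j : ℝ) / (Fintype.card V : ℝ) ^ j * (1 - (1 - 1 / ((r : ℝ) + 1)) ^ r) ≤
    (NG y r : ℝ) / (Fintype.card V : ℝ) ^ r * (1 - (1 - 1 / ((r : ℝ) + 1)) ^ j)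

/-- tuples with sum at least one, counted by the number of entries in `S` -/
def S_CNT : Prop := ∀ (V : Type) [Fintype V] [DecidableEq V] (y : V → ℝ) (S : Finset V) (k : ℕ),
  (∀ v, 0 ≤ y v) → (∀ v, v ∉ S → y v = 0) →
  (NG y k : ℝ) = ∑ j ∈ range (k + 1), (k.choose j : ℝ) *
    ((Fintype.card V : ℝ) - (S.card : ℝ)) ^ (k - j) * (NG (fun v : S => y v.1) j : ℝ)

/-- the bound -/
noncomputable def Bd (k : ℕ) (C ρ : ℝ) : ℝ :=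
  max (ρ ^ k) (1 - (1 - ρ / k) ^ k + ρ ^ k * ((1 - 1 / (k : ℝ)) ^ k -
    (1 - (1 - 1 / (k : ℝ)) ^ (k - 1)) / C))

/-- the interpolation: `p j` stands for `P(S_j ≥ 1)`, `k = r+1` -/
def S_BIN : Prop := ∀ (r : ℕ) (C ρ : ℝ) (p : ℕ → ℝ), 1 ≤ r → 0 < C → 0 ≤ ρ → ρ ≤ 1 → p 0 = 0 →
  (∀ j, 0 ≤ p j ∧ p j ≤ 1) →
  (∀ j, 1 ≤ j → j ≤ r → p j * (1 - (1 - 1 / ((r : ℝ) + 1)) ^ r) ≤ p r * (1 - (1 - 1 / ((r : ℝ) + 1)) ^ j)) →
  p r ≤ 1 - (1 - 1 / ((r : ℝ) + 1)) ^ r → p r ≤ C * (1 - p (r + 1)) →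
  ∑ j ∈ range (r + 2), ((r + 1).choose j : ℝ) * (1 - ρ) ^ (r + 1 - j) * ρ ^ j * p j ≤ Bd (r + 1) C ρ

/-- the counting bound -/
def S_BD : Prop := ∀ (r : ℕ) (C : ℝ), 1 ≤ r → 0 < C → STAR r C →
  ∀ (V : Type) [Fintype V] [DecidableEq V] (y : V → ℝ) (s : ℕ), (∀ v, 0 ≤ y v) → 0 < s →
  s ≤ Fintype.card V → (univ.filter (fun v => y v ≠ 0)).card ≤ s →
  ((r : ℝ) + 1) * ∑ v, y v ≤ (s : ℝ) →
  (NG y (r + 1) : ℝ) ≤ (Fintype.card V : ℝ) ^ (r + 1) * Bd (r + 1) C ((s : ℝ) / (Fintype.card V : ℝ))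

/-! ## Hypergraphs -/

/-- covers with small support -/
def S_MINC : Prop := ∀ (V : Type) [Fintype V] [DecidableEq V] (k : ℕ) (F : Finset (Finset V))
  (y : V → ℝ), 1 ≤ k → Unif k F → (∀ v, 0 ≤ y v) → (∀ e ∈ F, 1 ≤ ∑ v ∈ e, y v) →
  ∃ y' : V → ℝ, (∀ v, 0 ≤ y' v) ∧ (∀ e ∈ F, 1 ≤ ∑ v ∈ e, y' v) ∧ ∑ v, y' v ≤ ∑ v, y v ∧
    ((univ.filter (fun v => y' v ≠ 0)).card : ℝ) ≤ k * ∑ v, y' v

/-- an edge gives `k!` tuples -/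
def S_FAC : Prop := ∀ (V : Type) [Fintype V] [DecidableEq V] (k : ℕ) (F : Finset (Finset V))
  (y : V → ℝ), Unif k F → (∀ e ∈ F, 1 ≤ ∑ v ∈ e, y v) → F.card * k.factorial ≤ NG y k

/-- the asymptotic upper bound -/
def S_CL : Prop := ∀ (r : ℕ) (C : ℝ), 1 ≤ r → 0 < C → STAR r C → ∀ x : ℝ, 0 < x →
  ((r : ℝ) + 1) * x < 1 → ∀ ε : ℝ, 0 < ε → ∃ n0 : ℕ, ∀ n : ℕ, n0 ≤ n →
  ∀ F : Finset (Finset (Fin n)), Unif (r + 1) F →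
    (Bd (r + 1) C (((r : ℝ) + 1) * x) + ε) * ((n.choose (r + 1) : ℕ) : ℝ) ≤ (F.card : ℝ) →
    HasM F (⌊x * n⌋₊ + 1)

/-! ## Limits -/

/-- the value -/
noncomputable def mv (k : ℕ) (x : ℝ) : ℝ := max (1 - (1 - x) ^ k) ((k * x) ^ k)

/-- upper bound for the matching problem at `x` -/
def UB (k : ℕ) (x : ℝ) : Prop := ∀ ε : ℝ, 0 < ε → ∃ n0 : ℕ, ∀ n : ℕ, n0 ≤ n →
  ∀ F : Finset (Finset (Fin n)), Unif k F →
    (mv k x + ε) * ((n.choose k : ℕ) : ℝ) ≤ (F.card : ℝ) → HasM F (⌊x * n⌋₊ + 1)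

/-- slightly stronger form: the number of edges of the matching may be larger than `x n` -/
def UBS (k : ℕ) (x : ℝ) : Prop := ∀ ε : ℝ, 0 < ε → ∃ η : ℝ, 0 < η ∧ ∃ n0 : ℕ, ∀ n : ℕ, n0 ≤ n →
  ∀ F : Finset (Finset (Fin n)), Unif k F →
    (mv k x + ε) * ((n.choose k : ℕ) : ℝ) ≤ (F.card : ℝ) → HasM F (⌊(x + η) * n⌋₊)

/-- the condition on `x` close to `1/k` with constant `C` -/
def CondB (k : ℕ) (C x : ℝ) : Prop :=
  1 - (1 - x) ^ k + (k * x) ^ k * ((1 - 1 / (k : ℝ)) ^ k - (1 - (1 - 1 / (k : ℝ)) ^ (k - 1)) / C) ≤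
    mv k x

/-- the condition on `x` at most about `1/(k+0.582)` -/
def CondA (k : ℕ) (x : ℝ) : Prop := (1 - x) ^ k ≤ (1 - k * x) / (1 - (k - 1) * x)

/-- `UBS` from `S_CL` under `CondB` -/
def S_UBB : Prop := S_CL → ∀ (r : ℕ) (C : ℝ), 1 ≤ r → 0 < C → STAR r C → ∀ x : ℝ, 0 < x →
  ((r : ℝ) + 1) * x < 1 → CondB (r + 1) C x → UBS (r + 1) x

/-- `UBS` from `S_ASY` under `CondA` -/
def S_UBA : Prop := S_ASY → ∀ k : ℕ, 2 ≤ k → ∀ x : ℝ, 0 < x → k * x < 1 → CondA k x → UBS k x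

/-- the limit in the form of the integral problem -/
def S_LIMI : Prop := S_LOW → S_LIM → ∀ k : ℕ, 2 ≤ k → ∀ x : ℝ, 0 < x →
  (x = 1 / (k : ℝ) ∨ (k * x < 1 ∧ UBS k x)) →
  Tendsto (fun n : ℕ => (mm n k ⌊x * (n : ℝ)⌋₊ : ℝ) / ((n.choose k : ℕ) : ℝ)) atTop (𝓝 (mv k x))

/-- the limit in the form of the fractional problem -/
def S_LIMF : Prop := S_LIM → ∀ k : ℕ, 2 ≤ k → ∀ x : ℝ, 0 < x →
  (x = 1 / (k : ℝ) ∨ (k * x < 1 ∧ UBS k x)) →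
  ∀ ε : ℝ, 0 < ε → ∃ N : ℕ, ∀ n : ℕ, N ≤ n →
    (∀ F : Finset (Finset (Fin n)), (∀ e ∈ F, e.card = k) →
      (∀ w : Finset (Fin n) → ℝ, (∀ e, 0 ≤ w e) →
          (∀ v : Fin n, ∑ e ∈ F.filter (fun e => v ∈ e), w e ≤ 1) →
          ∑ e ∈ F, w e < x * (n : ℝ) + 1) →
      (F.card : ℝ) ≤
        (max (1 - (1 - x) ^ k) (((k : ℝ) * x) ^ k) + ε) * (n.choose k : ℝ)) ∧
    (∃ F : Finset (Finset (Fin n)), (∀ e ∈ F, e.card = k) ∧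
      (∀ w : Finset (Fin n) → ℝ, (∀ e, 0 ≤ w e) →
          (∀ v : Fin n, ∑ e ∈ F.filter (fun e => v ∈ e), w e ≤ 1) →
          ∑ e ∈ F, w e < x * (n : ℝ) + 1) ∧
      (max (1 - (1 - x) ^ k) (((k : ℝ) * x) ^ k) - ε) * (n.choose k : ℝ) ≤
        (F.card : ℝ))

/-- range of `CondB` with constant `2` -/
def S_RGB : Prop := ∀ k : ℕ, 2 ≤ k → ∀ x : ℝ, x ≤ 1 / (k : ℝ) → 5 ≤ (5 * k + 2) * x →
  1 - (1 - x) ^ k + (k * x) ^ k * ((1 - 1 / (k : ℝ)) ^ k - (1 - (1 - 1 / (k : ℝ)) ^ (k - 1)) / 2) ≤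
    (k * x) ^ k

end Pool.Agent.W593.IR
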