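import Mathlib
import Pool.Agent.W593.IR.Stm

/-!
# General interface: an inequality for i.i.d. variables gives the upper bound for hypergraphs
-/

set_option autoImplicit false

namespace Pool.Agent.W593.IR

open Finset Pool.Agent.W890.SF Filter Topology

/-- i.i.d. bound at `x`: `y` is a weight on `V`, supported on at most `s` points, `k ∑ y ≤ s`, and
`s ≤ k (x + η) |V|`; then at most `(mv k x + ε) |V|^k` tuples have sum at least one -/
def IB (k : ℕ) (x : ℝ) : Prop := ∀ ε : ℝ, 0 < ε → ∃ η : ℝ, 0 < η ∧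
  ∀ (V : Type) [Fintype V] [DecidableEq V] (y : V → ℝ) (s : ℕ), (∀ v, 0 ≤ y v) → 0 < s →
  s ≤ Fintype.card V → (univ.filter (fun v => y v ≠ 0)).card ≤ s →
  (k : ℝ) * ∑ v, y v ≤ (s : ℝ) → (s : ℝ) ≤ k * (x + η) * (Fintype.card V : ℝ) →
  (NG y k : ℝ) ≤ (Fintype.card V : ℝ) ^ k * (mv k x + ε)

/-- `UBS` from `IB` -/
def S_CLG : Prop := ∀ k : ℕ, 2 ≤ k → ∀ x : ℝ, 0 < x → k * x < 1 → IB k x → UBS k x

/-- weaker interface: only weights with `∑ y = x |V|` exactly, all `x < 1/k`, no support condition,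
no error terms: the i.i.d. inequality in the form of Samuels / Łuczak–Mieczkowska–Šileikis -/
def LMS (k : ℕ) : Prop := ∀ x : ℝ, 0 < x → k * x < 1 →
  ∀ (V : Type) [Fintype V] [Nonempty V] (y : V → ℝ), (∀ v, 0 ≤ y v) →
  ∑ v, y v = x * (Fintype.card V : ℝ) → (NG y k : ℝ) ≤ (Fintype.card V : ℝ) ^ k * mv k x

/-- the i.i.d. inequality gives the interface -/
def S_LMSIB : Prop := ∀ k : ℕ, 2 ≤ k → LMS k → ∀ x : ℝ, 0 < x → k * x < 1 → IB k x

/-- the critical inequality with a constant `C` gives the interface under `CondB` -/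
def S_BDIB : Prop := ∀ (r : ℕ) (C : ℝ), 1 ≤ r → 0 < C → STAR r C → ∀ x : ℝ, 0 < x →
  ((r : ℝ) + 1) * x < 1 → CondB (r + 1) C x → IB (r + 1) x

end Pool.Agent.W593.IR
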