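import Pool.Agent.W890.SF.All
import Pool.Agent.W593.IR.Stm2
import Pool.Agent.W53.IR.Gw
import Pool.Agent.W750.IR.RQ
import Pool.Agent.W348.IR.T2S
import Pool.Agent.W287.IR.St2
import Pool.Agent.W929.IR.LW
import Pool.Agent.W576.IR.SJ
import Pool.Agent.W29.IR.PJ
import Pool.Agent.W899.IR.Cnt
import Pool.Agent.W403.IR.Bin
import Pool.Agent.W804.IR.Bd
import Pool.Agent.W511.IR.Minc
import Pool.Agent.W412.IR.FAC
import Pool.Agent.W314.IR.CL
import Pool.Agent.W428.IR.UB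
import Pool.Agent.W446.IR.Limi
import Pool.Agent.W198.IR.Limf
import Pool.Agent.W479.IR.Rg
import Pool.Agent.W804.IR.BDIB
import Pool.Agent.W565.IR.Lmsib
import Pool.Agent.W883.IR.CLG

/-!
# The range of `x` close to `1/k` in the asymptotic Erdős matching conjecture: all steps together
-/

set_option autoImplicit false

namespace Pool.Agent.W593.IR

open Finset Pool.Agent.W890.SF Filter Topology

theorem t_GW : S_GW := Pool.Agent.W53.IR.gw
theorem t_RQ : S_RQ := Pool.Agent.W750.IR.rq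
theorem t_LANT : S_LANT := Pool.Agent.W750.IR.lant
theorem t_T2S : S_T2S := Pool.Agent.W348.IR.t2s t_BAS t_IND t_GW t_RQ t_LANT
theorem t_ST2 : S_ST2 := Pool.Agent.W287.IR.st2 t_MIX1 t_MIX2 t_T2S
theorem t_LW : S_LW := Pool.Agent.W929.IR.lw
theorem t_SJ : S_SJ := sj
theorem t_PJ : S_PJ := Pool.Agent.W29.IR.pj t_LW t_SJ
theorem t_CNT : S_CNT := Pool.Agent.W899.IR.cnt
theorem t_BIN : S_BIN := Pool.Agent.W403.IR.bin
theorem t_BD : S_BD := Pool.Agent.W804.IR.bd t_SJ t_PJ t_CNT t_BIN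
theorem t_MINC : S_MINC := Pool.Agent.W511.IR.minc
theorem t_FAC : S_FAC := Pool.Agent.W412.IR.fac
theorem t_CL : S_CL := Pool.Agent.W314.IR.cl t_DI1 t_BD t_MINC t_FAC
theorem t_UBB : S_UBB := Pool.Agent.W428.IR.UB.ubb
theorem t_UBA : S_UBA := Pool.Agent.W428.IR.UB.uba
theorem t_LIMI : S_LIMI := Pool.Agent.W446.IR.limi
theorem t_LIMF : S_LIMF := Pool.Agent.W198.IR.Limf.limf
theorem t_RGB : S_RGB := Pool.Agent.W479.IR.rgb
theorem t_BDIB : S_BDIB := Pool.Agent.W804.IR.bdib t_BD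
theorem t_LMSIB : S_LMSIB := Pool.Agent.W565.IR.lmsib
theorem t_CLG : S_CLG := Pool.Agent.W883.IR.clg t_DI1 t_MINC t_FAC

/-- the upper bound for `x` outside `(8/(8k+5), 5/(5k+2))` -/
theorem ub (k : ℕ) (hk : 2 ≤ k) (x : ℝ) (hx : 0 < x) (hx1 : x ≤ 1 / (k : ℝ))
    (h : (8 * (k : ℝ) + 5) * x ≤ 8 ∨ 5 ≤ (5 * (k : ℝ) + 2) * x) :
    x = 1 / (k : ℝ) ∨ ((k : ℝ) * x < 1 ∧ UBS k x) := by
  rcases h with h | h
  · obtain ⟨h1, h2⟩ := Pool.Agent.W479.IR.rga k hk x hx h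
    exact Or.inr ⟨h1, t_UBA t_ASY k hk x hx h1 h2⟩
  · rcases hx1.lt_or_eq with hlt | heq
    · right
      have hk0 : (0 : ℝ) < k := by positivity
      have h1 : (k : ℝ) * x < 1 := by
        rw [lt_div_iff₀ hk0] at hlt
        linarith
      refine ⟨h1, ?_⟩
      obtain ⟨r, rfl⟩ : ∃ r, k = r + 1 := ⟨k - 1, by omega⟩
      have hr : 1 ≤ r := by omega
      have hc : CondB (r + 1) 2 x := le_trans (t_RGB (r + 1) hk x hx1 h) (le_max_right _ _)
      have h1' : ((r : ℝ) + 1) * x < 1 := by exact_mod_cast h1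
      exact t_UBB t_CL r 2 hr (by norm_num) (t_ST2 r hr) x hx h1' hc
    · exact Or.inl heq

/-- the upper bound under `CondB` with constant `2` -/
theorem ubc (k : ℕ) (hk : 2 ≤ k) (x : ℝ) (hx : 0 < x) (hx1 : x ≤ 1 / (k : ℝ))
    (h : 1 - (1 - x) ^ k + (k * x) ^ k *
        ((1 - 1 / (k : ℝ)) ^ k - (1 - (1 - 1 / (k : ℝ)) ^ (k - 1)) / 2) ≤
          max (1 - (1 - x) ^ k) ((k * x) ^ k)) :
    x = 1 / (k : ℝ) ∨ ((k : ℝ) * x < 1 ∧ UBS k x) := by
  rcases hx1.lt_or_eq with hlt | heq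
  · right
    have hk0 : (0 : ℝ) < k := by positivity
    have h1 : (k : ℝ) * x < 1 := by
      rw [lt_div_iff₀ hk0] at hlt
      linarith
    refine ⟨h1, ?_⟩
    obtain ⟨r, rfl⟩ : ∃ r, k = r + 1 := ⟨k - 1, by omega⟩
    have hr : 1 ≤ r := by omega
    have h1' : ((r : ℝ) + 1) * x < 1 := by exact_mod_cast h1
    exact t_UBB t_CL r 2 hr (by norm_num) (t_ST2 r hr) x hx h1' h
  · exact Or.inl heq

end Pool.Agent.W593.IR
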