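import Mathlib
import Pool.Agent.W593.IR.Stm2

/-!
# All `x` for `k = 4, 5`: statements

`ρ = k x`; `S_r` = sum of `r` independent variables of mean `1/k`.
-/

set_option autoImplicit false

namespace Pool.Agent.W593.IR

open Finset Pool.Agent.W890.SF Filter Topology

/-- floor form of the chain -/
def S_FLR : Prop := ∀ (ι : Type) [DecidableEq ι] (b q : ι → ℝ) (c x w : ℝ) (S : Finset ι) (N : ℕ), 0 < c →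
  (∀ i ∈ S, 0 < b i ∧ 0 ≤ q i ∧ q i < 1) → (∀ i ∈ S, b i * q i ≤ x) → 0 < x → x ≤ w →
  w * PU b q c S ≤ PG b q c S → c - ∑ i ∈ S, b i * q i + N * x ≤ w →
  (c - ∑ i ∈ S, b i * q i + N * x) * (1 - x / w) ^ N ≤ PG b q c S

/-- `P(X_1 + ... + X_n < 1)` for the first `n` variables -/
noncomputable def Us (a b q : ℕ → ℝ) (n : ℕ) : ℝ :=
  PP (fun i : Fin n => a i) (fun i : Fin n => b i) (fun i : Fin n => q i)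

/-- `E (1 - X_1 - ... - X_n)^+` for the first `n` variables -/
noncomputable def Gs (a b q : ℕ → ℝ) (n : ℕ) : ℝ :=
  PG (fun i : Fin n => b i) (fun i : Fin n => q i) (1 - ∑ i : Fin n, a i) univ

/-- relations between `u j = P(S_{k-j} < 1)` and `H j = k E (1 - S_{k-j})^+` -/
structure SQ (k : ℕ) (u H : ℕ → ℝ) : Prop where
  u0 : ∀ j, j ≤ k → 0 ≤ u j
  u1 : ∀ j, j ≤ k → u j ≤ 1
  h0 : ∀ j, j ≤ k → (j : ℝ) ≤ H j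
  h1 : ∀ j, j ≤ k → H j ≤ k * u j
  uk : u k = 1
  st : ∀ j, j < k → H (j + 1) ≤ H j + u (j + 1)
  ch : ∀ j, j ≤ k → ∀ m : ℕ, j ≤ m → ∀ g : ℝ, (m : ℝ) ≤ g → 1 ≤ g → 0 < u j → g * u j ≤ H j →
    (m : ℝ) * (1 - 1 / g) ^ (m - j) ≤ H j

/-- the relations hold for two-point variables of mean `1/k` -/
def S_SEQ : Prop := ∀ k : ℕ, 1 ≤ k → ∀ a b q : ℕ → ℝ,
  TP k (1 / (k : ℝ)) (fun i : Fin k => a i) (fun i : Fin k => b i) (fun i : Fin k => q i) →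
  SQ k (fun j => Us a b q (k - j)) (fun j => (k : ℝ) * Gs a b q (k - j))

/-- bound from the relations -/
def NB (k : ℕ) (ρ : ℝ) : Prop := ∀ u H : ℕ → ℝ, SQ k u H →
  min (1 - ρ ^ k) ((1 - ρ / k) ^ k) ≤
    ∑ j ∈ range (k + 1), (k.choose j : ℝ) * (1 - ρ) ^ j * ρ ^ (k - j) * u j

/-- bound for two-point variables -/
def TB (k : ℕ) (ρ : ℝ) : Prop := ∀ a b q : ℕ → ℝ,
  TP k (1 / (k : ℝ)) (fun i : Fin k => a i) (fun i : Fin k => b i) (fun i : Fin k => q i) →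
  min (1 - ρ ^ k) ((1 - ρ / k) ^ k) ≤
    ∑ r ∈ range (k + 1), (k.choose r : ℝ) * (1 - ρ) ^ (k - r) * ρ ^ r * Us a b q r

/-- bound for laws with finitely many equally likely values -/
def VB (k : ℕ) (ρ : ℝ) : Prop := ∀ (V : Type) [Fintype V] [Nonempty V] (y : V → ℝ), (∀ v, 0 ≤ y v) →
  (k : ℝ) * ∑ v, y v = (Fintype.card V : ℝ) →
  min (1 - ρ ^ k) ((1 - ρ / k) ^ k) ≤
    ∑ r ∈ range (k + 1), (k.choose r : ℝ) * (1 - ρ) ^ (k - r) * ρ ^ r *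
      ((NL y r : ℝ) / (Fintype.card V : ℝ) ^ r)

/-- bound for weights supported on `ρ |V|` points -/
def EXR (k : ℕ) (ρ : ℝ) : Prop := ∀ (V : Type) [Fintype V] [DecidableEq V] (y : V → ℝ) (s : ℕ),
  (∀ v, 0 ≤ y v) → 0 < s → s ≤ Fintype.card V → (univ.filter (fun v => y v ≠ 0)).card ≤ s →
  (k : ℝ) * ∑ v, y v ≤ (s : ℝ) → (s : ℝ) / (Fintype.card V : ℝ) = ρ →
  (NG y k : ℝ) ≤ (Fintype.card V : ℝ) ^ k * max (ρ ^ k) (1 - (1 - ρ / k) ^ k)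

def S_TBN : Prop := S_SEQ → ∀ (k : ℕ) (ρ : ℝ), 1 ≤ k → NB k ρ → TB k ρ

def S_VB : Prop := S_MIX1 → S_MIX2 → ∀ (k : ℕ) (ρ : ℝ), 1 ≤ k → 0 ≤ ρ → ρ ≤ 1 → TB k ρ → VB k ρ

def S_EXV : Prop := S_CNT → ∀ (k : ℕ) (ρ : ℝ), 1 ≤ k → 0 ≤ ρ → ρ ≤ 1 → VB k ρ → EXR k ρ

def S_IBE : Prop := ∀ (k : ℕ) (x ρ1 : ℝ), 2 ≤ k → 0 < x → k * x < ρ1 → ρ1 ≤ 1 →
  (∀ ρ : ℝ, k * x ≤ ρ → ρ ≤ ρ1 → EXR k ρ) → IB k x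

/-! ## Consequences of the relations for `k = 4, 5` -/

def S_CHJ4 : Prop := ∀ u H : ℕ → ℝ, SQ 4 u H →
  4 / 7 ≤ u 1 + 1 / 7 * H 0 ∧ 108 / 217 ≤ u 1 + 13 / 217 * H 0 ∧ 18 / 17 ≤ u 2 + 5 / 17 * H 1

def S_CHJ5 : Prop := ∀ u H : ℕ → ℝ, SQ 5 u H →
  4 / 7 ≤ u 1 + 1 / 7 * H 0 ∧ 108 / 217 ≤ u 1 + 13 / 217 * H 0 ∧
  6912 / 14911 ≤ u 1 + 491 / 14911 * H 0 ∧
  18 / 17 ≤ u 2 + 5 / 17 * H 1 ∧ 576 / 721 ≤ u 2 + 101 / 721 * H 1 ∧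
  48 / 31 ≤ u 3 + 11 / 31 * H 2

def S_CH0 : Prop := ∀ k : ℕ, (k = 4 ∨ k = 5) → ∀ u H : ℕ → ℝ, SQ k u H →
  (H 0 ≤ 1 / 2 → 1 / 2 * H 0 ≤ u 0) ∧
  (1 / 2 ≤ H 0 → H 0 ≤ 8 / 9 → 4 / 21 + 5 / 42 * H 0 ≤ u 0) ∧
  (8 / 9 ≤ H 0 → H 0 ≤ 81 / 64 → 54 / 217 + 139 / 2604 * H 0 ≤ u 0) ∧
  (k = 5 → 81 / 64 ≤ H 0 → H 0 ≤ 1024 / 625 → 20736 / 74555 + 9019 / 298220 * H 0 ≤ u 0)

def S_SM : Prop := ∀ k : ℕ, (k = 4 ∨ k = 5) → ∀ u H : ℕ → ℝ, SQ k u H →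
  ∀ j, 1 ≤ j → j ≤ k → (1 - 1 / (k : ℝ)) ^ (k - j) ≤ u j

/-- the value at `h = m` -/
noncomputable def Ph (k m : ℕ) (ρ : ℝ) : ℝ :=
  ∑ j ∈ range (k + 1), (k.choose j : ℝ) * (1 - ρ) ^ j * ρ ^ (k - j) *
    (if m ≤ j then 1 else (1 - 1 / (m : ℝ)) ^ (m - j))

def S_PH4 : Prop := ∀ ρ : ℝ, 32 / 37 ≤ ρ → ρ ≤ 10 / 11 →
  min (1 - ρ ^ 4) ((1 - ρ / 4) ^ 4) ≤ Ph 4 2 ρ ∧ min (1 - ρ ^ 4) ((1 - ρ / 4) ^ 4) ≤ Ph 4 3 ρ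

def S_PH5 : Prop := ∀ ρ : ℝ, 8 / 9 ≤ ρ → ρ ≤ 25 / 27 →
  min (1 - ρ ^ 5) ((1 - ρ / 5) ^ 5) ≤ Ph 5 2 ρ ∧ min (1 - ρ ^ 5) ((1 - ρ / 5) ^ 5) ≤ Ph 5 3 ρ ∧
  min (1 - ρ ^ 5) ((1 - ρ / 5) ^ 5) ≤ Ph 5 4 ρ

def S_FIN4 : Prop := S_CHJ4 → S_CH0 → S_SM → S_PH4 → ∀ ρ : ℝ, 32 / 37 ≤ ρ → ρ ≤ 10 / 11 → NB 4 ρ

def S_FIN5 : Prop := S_CHJ5 → S_CH0 → S_SM → S_PH5 → ∀ ρ : ℝ, 8 / 9 ≤ ρ → ρ ≤ 25 / 27 → NB 5 ρ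

end Pool.Agent.W593.IR
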