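import Pool.Agent.W593.IR.Stm3

set_option autoImplicit false

namespace Pool.Agent.W593.IR

theorem ch0_core (k : ℕ) (u H : ℕ → ℝ) (h : SQ k u H) (m : ℕ) (hm : 1 ≤ m) (al be lo : ℝ)
    (hbe : be ≤ 1 / ((m : ℝ) + 1))
    (hpoly : ∀ v : ℝ, 1 / ((m : ℝ) + 1) ≤ v → v ≤ 1 / (m : ℝ) → al ≤ m * (1 - v) ^ m * (v - be))
    (hlin : ∀ x : ℝ, lo ≤ x → al + be * x ≤ x / m)
    (hlo : lo ≤ H 0) (hpos : 0 < H 0)
    (hup : H 0 ≤ ((m : ℝ) + 1) * (1 - 1 / ((m : ℝ) + 1)) ^ (m + 1)) :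
    al + be * H 0 ≤ u 0 := by
  have hmR : (1 : ℝ) ≤ m := by exact_mod_cast hm
  have hu1 : H 0 ≤ k * u 0 := h.h1 0 (Nat.zero_le _)
  have hu0 : 0 ≤ u 0 := h.u0 0 (Nat.zero_le _)
  have hU : 0 < u 0 := by
    rcases hu0.lt_or_eq with h' | h'
    · exact h'
    · rw [← h'] at hu1
      simp at hu1
      linarith
  by_cases c1 : H 0 ≤ m * u 0
  · refine (hlin _ hlo).trans ?_
    rw [div_le_iff₀ (by linarith)]
    linarith
  push Not at c1
  set g := H 0 / u 0 with hg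
  have hgu : g * u 0 = H 0 := by
    rw [hg]; field_simp
  have hgm : (m : ℝ) < g := by
    rw [hg, lt_div_iff₀ hU]; exact c1
  have hg0 : 0 < g := by linarith
  by_cases c2 : g ≤ (m : ℝ) + 1
  · have e := h.ch 0 (Nat.zero_le _) m (Nat.zero_le _) g hgm.le (by linarith) hU hgu.le
    rw [Nat.sub_zero] at e
    have hv1 : 1 / ((m : ℝ) + 1) ≤ 1 / g := one_div_le_one_div_of_le hg0 c2
    have hv2 : 1 / g ≤ 1 / (m : ℝ) := one_div_le_one_div_of_le (by linarith) hgm.le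
    have p := hpoly (1 / g) hv1 hv2
    have hvb : 0 ≤ 1 / g - be := by linarith
    have q := mul_le_mul_of_nonneg_right e hvb
    have : u 0 = (1 / g) * H 0 := by
      rw [← hgu]; field_simp
    rw [this]
    nlinarith
  · exfalso
    push Not at c2
    have hgm1 : (((m + 1 : ℕ) : ℝ)) ≤ g := by push_cast; exact c2.le
    have e := h.ch 0 (Nat.zero_le _) (m + 1) (Nat.zero_le _) g hgm1 (by linarith) hU hgu.le
    rw [Nat.sub_zero] at e
    push_cast at e
    have hlt : 1 - 1 / ((m : ℝ) + 1) < 1 - 1 / g := by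
      have := one_div_lt_one_div_of_lt (by linarith : (0 : ℝ) < (m : ℝ) + 1) c2
      linarith
    have h0 : 0 ≤ 1 - 1 / ((m : ℝ) + 1) := by
      have : 1 / ((m : ℝ) + 1) ≤ 1 := by
        rw [div_le_one (by linarith)]; linarith
      linarith
    have hp : (1 - 1 / ((m : ℝ) + 1)) ^ (m + 1) < (1 - 1 / g) ^ (m + 1) :=
      pow_lt_pow_left₀ hlt h0 (by omega)
    have : ((m : ℝ) + 1) * (1 - 1 / ((m : ℝ) + 1)) ^ (m + 1) <
        ((m : ℝ) + 1) * (1 - 1 / g) ^ (m + 1) := by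
      apply mul_lt_mul_of_pos_left hp (by linarith)
    linarith

theorem ch0 : S_CH0 := by
  intro k hk u H h
  have hu0 : 0 ≤ u 0 := h.u0 0 (Nat.zero_le _)
  refine ⟨fun h1 => ?_, fun h1 h2 => ?_, fun h1 h2 => ?_, fun _ h1 h2 => ?_⟩
  · by_cases hpos : 0 < H 0
    · have := ch0_core k u H h 1 le_rfl 0 (1 / 2) 0 (by norm_num)
        (fun v hv1 hv2 => by
          norm_num at hv1 hv2 ⊢
          have h3 : 0 ≤ 1 - v := by linarith
          have h4 : 0 ≤ v - 1 / 2 := by linarith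
          exact mul_nonneg h3 h4) (fun x hx => by norm_num; linarith) hpos.le hpos
        (by norm_num; linarith)
      linarith
    · push Not at hpos
      linarith
  · refine ch0_core k u H h 2 (by norm_num) (4 / 21) (5 / 42) (1 / 2) (by norm_num) ?_ ?_ h1
      (by linarith) (by norm_num; linarith)
    · intro v hv1 hv2
      norm_num at hv1 hv2 ⊢
      nlinarith [mul_nonneg (sub_nonneg.mpr hv1) (sub_nonneg.mpr hv2),
        mul_nonneg (mul_nonneg (sub_nonneg.mpr hv1) (sub_nonneg.mpr hv2)) (sub_nonneg.mpr hv1),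
        mul_nonneg (mul_nonneg (sub_nonneg.mpr hv1) (sub_nonneg.mpr hv2)) (sub_nonneg.mpr hv2)]
    · intro x hx
      norm_num
      linarith
  · refine ch0_core k u H h 3 (by norm_num) (54 / 217) (139 / 2604) (8 / 9) (by norm_num) ?_ ?_ h1
      (by linarith) (by norm_num; linarith)
    · intro v hv1 hv2
      norm_num at hv1 hv2 ⊢
      nlinarith [mul_nonneg (sub_nonneg.mpr hv1) (sub_nonneg.mpr hv2),
        mul_nonneg (mul_nonneg (sub_nonneg.mpr hv1) (sub_nonneg.mpr hv2)) (sub_nonneg.mpr hv1),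
        mul_nonneg (mul_nonneg (sub_nonneg.mpr hv1) (sub_nonneg.mpr hv2)) (sub_nonneg.mpr hv2),
        mul_nonneg (mul_nonneg (sub_nonneg.mpr hv1) (sub_nonneg.mpr hv2)) (mul_nonneg (sub_nonneg.mpr hv1) (sub_nonneg.mpr hv2))]
    · intro x hx
      norm_num
      linarith
  · refine ch0_core k u H h 4 (by norm_num) (20736 / 74555) (9019 / 298220) (81 / 64) (by norm_num) ?_ ?_ h1
      (by linarith) (by norm_num; linarith)
    · intro v hv1 hv2
      norm_num at hv1 hv2 ⊢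
      nlinarith [mul_nonneg (sub_nonneg.mpr hv1) (sub_nonneg.mpr hv2),
        mul_nonneg (mul_nonneg (sub_nonneg.mpr hv1) (sub_nonneg.mpr hv2)) (sub_nonneg.mpr hv1),
        mul_nonneg (mul_nonneg (sub_nonneg.mpr hv1) (sub_nonneg.mpr hv2)) (sub_nonneg.mpr hv2),
        mul_nonneg (mul_nonneg (sub_nonneg.mpr hv1) (sub_nonneg.mpr hv2)) (mul_nonneg (sub_nonneg.mpr hv1) (sub_nonneg.mpr hv2)),
        mul_nonneg (mul_nonneg (mul_nonneg (sub_nonneg.mpr hv1) (sub_nonneg.mpr hv2)) (mul_nonneg (sub_nonneg.mpr hv1) (sub_nonneg.mpr hv2))) (sub_nonneg.mpr hv1)]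
    · intro x hx
      norm_num
      linarith

end Pool.Agent.W593.IR
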