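import Pool.Agent.W593.IR.Stm3

set_option autoImplicit false

namespace Pool.Agent.W593.IR

open Finset Pool.Agent.W890.SF

theorem tbn : S_TBN := by
  intro hS k ρ hk hN a b q hT
  refine (hN _ _ (hS k hk a b q hT)).trans (le_of_eq ?_)
  rw [← Finset.sum_range_reflect]
  refine Finset.sum_congr rfl fun j hj => ?_
  have hj' : j ≤ k := by
    have := Finset.mem_range.mp hj
    omega
  have e1 : k + 1 - 1 - j = k - j := by omega
  have e2 : k - (k - j) = j := by omega
  simp only [e1, e2]
  rw [Nat.choose_symm hj']

end Pool.Agent.W593.IR
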