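import Pool.Agent.W593.IR.Core3
import Pool.Agent.W593.IR.Tbn
import Pool.Agent.W890.IR.FLR
import Pool.Agent.W446.IR.Seq
import Pool.Agent.W159.IR.VB
import Pool.Agent.W20.IR.Exv
import Pool.Agent.W854.IR.IBE
import Pool.Agent.W680.IR.Chj4
import Pool.Agent.W79.IR.Chj5
import Pool.Agent.W593.IR.Ch0
import Pool.Agent.W200.IR.SM
import Pool.Agent.W20.IR.PH4
import Pool.Agent.W100.IR.PH5
import Pool.Agent.W71.IR.Fin4
import Pool.Agent.W199.IR.Fin5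

/-!
# The asymptotic Erdős matching problem for `k = 4, 5`, all densities
-/

set_option autoImplicit false

namespace Pool.Agent.W593.IR

open Finset Pool.Agent.W890.SF Filter Topology

theorem t_FLR : S_FLR := Pool.Agent.W890.IR.flr t_BAS t_ADD t_KEY
theorem t_SEQ : S_SEQ := Pool.Agent.W446.IR.seq t_BAS t_GW t_FLR
theorem t_VB : S_VB := Pool.Agent.W159.IR.vb
theorem t_EXV : S_EXV := Pool.Agent.W20.IR.exv
theorem t_IBE : S_IBE := Pool.Agent.W854.IR.ibe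
theorem t_CHJ4 : S_CHJ4 := Pool.Agent.W680.IR.chj4
theorem t_CHJ5 : S_CHJ5 := Pool.Agent.W79.IR.chj5
theorem t_CH0 : S_CH0 := ch0
theorem t_SM : S_SM := Pool.Agent.W200.IR.sm
theorem t_PH4 : S_PH4 := Pool.Agent.W20.IR.ph4
theorem t_PH5 : S_PH5 := Pool.Agent.W100.IR.ph5
theorem t_FIN4 : S_FIN4 := Pool.Agent.W71.IR.fin4
theorem t_FIN5 : S_FIN5 := Pool.Agent.W199.IR.fin5

theorem ub45 (k : ℕ) (hk : k = 4 ∨ k = 5) (x : ℝ) (hx : 0 < x) (hx1 : x ≤ 1 / (k : ℝ)) :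
    x = 1 / (k : ℝ) ∨ ((k : ℝ) * x < 1 ∧ UBS k x) :=
  ub45_of t_CLG t_IBE t_SEQ tbn t_VB t_EXV (t_FIN4 t_CHJ4 t_CH0 t_SM t_PH4)
    (t_FIN5 t_CHJ5 t_CH0 t_SM t_PH5) k hk x hx hx1

end Pool.Agent.W593.IR
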