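import Pool.Agent.W593.IR.Core4
import Pool.Agent.W593.IR.All3
import Pool.Agent.W427.IR.Uni

/-!
# Uniform form of the Erdős matching bound
-/

set_option autoImplicit false

namespace Pool.Agent.W593.IR

open Finset Pool.Agent.W890.SF Filter Topology

theorem t_UNI : S_UNI := fun k α β hk hα hβ h ε hε => Pool.Agent.W427.IR.uni k α β hk hα hβ h ε hε

theorem t_unif (k : ℕ) (hk : 2 ≤ k) (ε : ℝ) (hε : 0 < ε) :
    ∃ n0 : ℕ, ∀ n : ℕ, n0 ≤ n → ∀ s : ℕ, k * s ≤ n →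
    (k = 4 ∨ k = 5 ∨ (8 * k + 5) * s ≤ 8 * n ∨ 5 * n ≤ (5 * k + 2) * s) →
    ∀ F : Finset (Finset (Fin n)), Unif k F → ¬ HasM F (s + 1) →
    (F.card : ℝ) ≤ (1 + ε) * max (((n.choose k : ℕ) : ℝ) - (((n - s).choose k : ℕ) : ℝ))
      (((k * (s + 1) - 1).choose k : ℕ) : ℝ) :=
  unif_form t_UNI ub45 k hk ε hε

end Pool.Agent.W593.IR
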