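import Pool.Agent.W593.IR.All
import Pool.Agent.W593.IR.Stm3

/-!
# All `x` for `k = 4, 5`: the steps put together (with the steps as hypotheses)
-/

set_option autoImplicit false

namespace Pool.Agent.W593.IR

open Finset Pool.Agent.W890.SF Filter Topology

theorem ub_of_EXR (k : ℕ) (hk : 2 ≤ k) (hC : S_CLG) (hI : S_IBE)
    (hE : ∀ ρ : ℝ, 8 * (k : ℝ) / (8 * k + 5) ≤ ρ → ρ ≤ 5 * (k : ℝ) / (5 * k + 2) → EXR k ρ)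
    (x : ℝ) (hx : 0 < x) (hx1 : x ≤ 1 / (k : ℝ)) :
    x = 1 / (k : ℝ) ∨ ((k : ℝ) * x < 1 ∧ UBS k x) := by
  by_cases h1 : (8 * (k : ℝ) + 5) * x ≤ 8
  · exact ub k hk x hx hx1 (Or.inl h1)
  by_cases h2 : 5 ≤ (5 * (k : ℝ) + 2) * x
  · exact ub k hk x hx hx1 (Or.inr h2)
  right
  push Not at h1 h2
  have hk0 : (0 : ℝ) < k := by positivity
  have a1 : (0 : ℝ) < 8 * k + 5 := by positivity
  have a2 : (0 : ℝ) < 5 * k + 2 := by positivity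
  have h3 : (k : ℝ) * x < 5 * k / (5 * k + 2) := by
    rw [lt_div_iff₀ a2]
    nlinarith
  have h4 : 5 * (k : ℝ) / (5 * k + 2) < 1 := by
    rw [div_lt_one a2]
    linarith
  have h5 : (k : ℝ) * x < 1 := h3.trans h4
  refine ⟨h5, hC k hk x hx h5 (hI k x _ hk hx h3 h4.le fun ρ hρ1 hρ2 => hE ρ ?_ hρ2)⟩
  refine le_trans ?_ hρ1
  rw [div_le_iff₀ a1]
  nlinarith

theorem exr_of_NB (k : ℕ) (hk : 1 ≤ k) (ρ : ℝ) (h0 : 0 ≤ ρ) (h1 : ρ ≤ 1) (hS : S_SEQ) (hT : S_TBN)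
    (hV : S_VB) (hX : S_EXV) (h : NB k ρ) : EXR k ρ :=
  hX t_CNT k ρ hk h0 h1 (hV t_MIX1 t_MIX2 k ρ hk h0 h1 (hT hS k ρ hk h))

theorem ub45_of (hC : S_CLG) (hI : S_IBE) (hS : S_SEQ) (hT : S_TBN) (hV : S_VB) (hX : S_EXV)
    (h4 : ∀ ρ : ℝ, 32 / 37 ≤ ρ → ρ ≤ 10 / 11 → NB 4 ρ)
    (h5 : ∀ ρ : ℝ, 8 / 9 ≤ ρ → ρ ≤ 25 / 27 → NB 5 ρ)
    (k : ℕ) (hk : k = 4 ∨ k = 5) (x : ℝ) (hx : 0 < x) (hx1 : x ≤ 1 / (k : ℝ)) :
    x = 1 / (k : ℝ) ∨ ((k : ℝ) * x < 1 ∧ UBS k x) := by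
  rcases hk with rfl | rfl
  · refine ub_of_EXR 4 (by norm_num) hC hI (fun ρ a b => ?_) x hx hx1
    have a' : (32 : ℝ) / 37 ≤ ρ := by norm_num at a ⊢; linarith
    have b' : ρ ≤ (10 : ℝ) / 11 := by norm_num at b ⊢; linarith
    exact exr_of_NB 4 (by norm_num) ρ (by linarith) (by linarith) hS hT hV hX (h4 ρ a' b')
  · refine ub_of_EXR 5 (by norm_num) hC hI (fun ρ a b => ?_) x hx hx1
    have a' : (8 : ℝ) / 9 ≤ ρ := by norm_num at a ⊢; linarith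
    have b' : ρ ≤ (25 : ℝ) / 27 := by norm_num at b ⊢; linarith
    exact exr_of_NB 5 (by norm_num) ρ (by linarith) (by linarith) hS hT hV hX (h5 ρ a' b')

end Pool.Agent.W593.IR
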