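import Pool.Agent.W593.IR.Core3

/-!
# Uniform form of the Erdős matching bound (with the uniform statement as a hypothesis)
-/

set_option autoImplicit false

namespace Pool.Agent.W593.IR

open Finset Pool.Agent.W890.SF Filter Topology

/-- uniform bound on an interval of densities -/
def S_UNI : Prop := ∀ (k : ℕ) (α β : ℝ), 2 ≤ k → 0 < α → β ≤ 1 / (k : ℝ) →
    (∀ x : ℝ, α ≤ x → x ≤ β → x = 1 / (k : ℝ) ∨ ((k : ℝ) * x < 1 ∧ UBS k x)) →
    ∀ ε : ℝ, 0 < ε → ∃ n0 : ℕ, ∀ n : ℕ, n0 ≤ n → ∀ s : ℕ, α * n ≤ s → (s : ℝ) ≤ β * n →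
    ∀ F : Finset (Finset (Fin n)), Unif k F → ¬ HasM F (s + 1) →
    (F.card : ℝ) ≤ (1 + ε) * max (((n.choose k : ℕ) : ℝ) - (((n - s).choose k : ℕ) : ℝ))
      (((k * (s + 1) - 1).choose k : ℕ) : ℝ)

theorem unif_form (hU : S_UNI)
    (h45 : ∀ k : ℕ, (k = 4 ∨ k = 5) → ∀ x : ℝ, 0 < x → x ≤ 1 / (k : ℝ) →
      x = 1 / (k : ℝ) ∨ ((k : ℝ) * x < 1 ∧ UBS k x))
    (k : ℕ) (hk : 2 ≤ k) (ε : ℝ) (hε : 0 < ε) : ∃ n0 : ℕ, ∀ n : ℕ, n0 ≤ n → ∀ s : ℕ, k * s ≤ n →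
    (k = 4 ∨ k = 5 ∨ (8 * k + 5) * s ≤ 8 * n ∨ 5 * n ≤ (5 * k + 2) * s) →
    ∀ F : Finset (Finset (Fin n)), Unif k F → ¬ HasM F (s + 1) →
    (F.card : ℝ) ≤ (1 + ε) * max (((n.choose k : ℕ) : ℝ) - (((n - s).choose k : ℕ) : ℝ))
      (((k * (s + 1) - 1).choose k : ℕ) : ℝ) := by
  have hk0 : (0 : ℝ) < k := by positivity
  obtain ⟨n1, hn1⟩ := t_EMC k hk
  have e1 : (0 : ℝ) < 40 * k + 39 := by positivity
  have e2 : (0 : ℝ) < 8 * k + 5 := by positivity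
  have e3 : (0 : ℝ) < 5 * k + 2 := by positivity
  obtain ⟨n2, hn2⟩ := hU k (40 / (40 * k + 39)) (8 / (8 * k + 5)) hk (by positivity)
    (by rw [div_le_div_iff₀ e2 hk0]; linarith)
    (fun x hx1 hx2 => ub k hk x (lt_of_lt_of_le (by positivity) hx1)
      (hx2.trans (by rw [div_le_div_iff₀ e2 hk0]; linarith))
      (Or.inl (by rw [le_div_iff₀ e2] at hx2; linarith))) ε hε
  obtain ⟨n3, hn3⟩ := hU k (5 / (5 * k + 2)) (1 / k) hk (by positivity) le_rfl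
    (fun x hx1 hx2 => ub k hk x (lt_of_lt_of_le (by positivity) hx1) hx2
      (Or.inr (by rw [div_le_iff₀ e3] at hx1; linarith))) ε hε
  have hn4 : ∃ n4 : ℕ, (k = 4 ∨ k = 5) → ∀ n : ℕ, n4 ≤ n → ∀ s : ℕ,
      (40 / (40 * (k : ℝ) + 39)) * n ≤ s → (s : ℝ) ≤ (1 / (k : ℝ)) * n →
      ∀ F : Finset (Finset (Fin n)), Unif k F → ¬ HasM F (s + 1) →
      (F.card : ℝ) ≤ (1 + ε) * max (((n.choose k : ℕ) : ℝ) - (((n - s).choose k : ℕ) : ℝ))
        (((k * (s + 1) - 1).choose k : ℕ) : ℝ) := by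
    by_cases h : k = 4 ∨ k = 5
    · obtain ⟨n4, h4⟩ := hU k (40 / (40 * k + 39)) (1 / k) hk (by positivity) le_rfl
        (fun x hx1 hx2 => h45 k h x (lt_of_lt_of_le (by positivity) hx1) hx2) ε hε
      exact ⟨n4, fun _ => h4⟩
    · exact ⟨0, fun h' => absurd h' h⟩
  obtain ⟨n4, hn4⟩ := hn4
  refine ⟨max (max n1 n2) (max n3 n4), fun n hn s hs hc F hF hM => ?_⟩
  have b1 : n1 ≤ n := by omega
  have b2 : n2 ≤ n := by omega
  have b3 : n3 ≤ n := by omega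
  have b4 : n4 ≤ n := by omega
  have hsR : (k : ℝ) * s ≤ n := by exact_mod_cast hs
  have hs1 : (s : ℝ) ≤ 1 / (k : ℝ) * n := by
    rw [one_div, ← div_eq_inv_mul, le_div_iff₀ hk0]
    linarith
  by_cases hex : (40 * k + 39) * s ≤ 40 * n
  · have hle : F.card ≤ n.choose k - (n - s).choose k := by
      by_contra hcon
      exact hM (hn1 n b1 s hex F hF (not_le.mp hcon))
    have hmono : (n - s).choose k ≤ n.choose k := Nat.choose_le_choose k (Nat.sub_le n s)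
    have hle' : (F.card : ℝ) ≤ ((n.choose k : ℕ) : ℝ) - (((n - s).choose k : ℕ) : ℝ) := by
      rw [← Nat.cast_sub hmono]
      exact_mod_cast hle
    have h0 : (0 : ℝ) ≤ ((n.choose k : ℕ) : ℝ) - (((n - s).choose k : ℕ) : ℝ) :=
      le_trans (by positivity) hle'
    have hmx := le_max_left (((n.choose k : ℕ) : ℝ) - (((n - s).choose k : ℕ) : ℝ))
      ((((k * (s + 1) - 1).choose k : ℕ) : ℝ))
    nlinarith
  · push Not at hex
    have hexR : 40 * (n : ℝ) < (40 * k + 39) * s := by exact_mod_cast hex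
    have hα : 40 / (40 * (k : ℝ) + 39) * n ≤ s := by
      rw [div_mul_eq_mul_div, div_le_iff₀ e1]
      linarith
    rcases hc with h | h | h | h
    · exact hn4 (Or.inl h) n b4 s hα hs1 F hF hM
    · exact hn4 (Or.inr h) n b4 s hα hs1 F hF hM
    · refine hn2 n b2 s hα ?_ F hF hM
      have hR : (8 * (k : ℝ) + 5) * s ≤ 8 * n := by exact_mod_cast h
      rw [div_mul_eq_mul_div, le_div_iff₀ e2]
      linarith
    · refine hn3 n b3 s ?_ hs1 F hF hM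
      have hR : 5 * (n : ℝ) ≤ (5 * k + 2) * s := by exact_mod_cast h
      rw [div_mul_eq_mul_div, div_le_iff₀ e3]
      linarith

end Pool.Agent.W593.IR
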